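import Pool.Agent.Q271.ZC.Sys

/-!
Project ZC (helper271): job ZC-CUP (S_CUP).
-/

set_option autoImplicit false

namespace Pool.Agent.Q211.ZC

open Pool.Agent.Q271.ZC

/-- the permutation acting by `τ` and `τ'` on the two parts -/
def blk {k k' : ℕ} (τ : Equiv.Perm (Fin k)) (τ' : Equiv.Perm (Fin k')) : Equiv.Perm (Fin (k + k')) :=
  finSumFinEquiv.permCongr (Equiv.Perm.sumCongr τ τ')

theorem blk_left {k k' : ℕ} (τ : Equiv.Perm (Fin k)) (τ' : Equiv.Perm (Fin k')) (l : Fin k) :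
    blk τ τ' (Fin.castAdd k' l) = Fin.castAdd k' (τ l) := by
  simp [blk, Equiv.permCongr_apply]

theorem blk_right {k k' : ℕ} (τ : Equiv.Perm (Fin k)) (τ' : Equiv.Perm (Fin k')) (l : Fin k') :
    blk τ τ' (Fin.natAdd k l) = Fin.natAdd k (τ' l) := by
  simp [blk, Equiv.permCongr_apply]

theorem blk_sign {k k' : ℕ} (τ : Equiv.Perm (Fin k)) (τ' : Equiv.Perm (Fin k')) :
    Equiv.Perm.sign (blk τ τ') = Equiv.Perm.sign τ * Equiv.Perm.sign τ' := by
  unfold blk
  rw [Equiv.Perm.sign_permCongr, Equiv.Perm.sign_sumCongr]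

theorem s_CUP : S_CUP := by
  intro X W R _ ξ k k' I I' v
  unfold cup
  have key : ∀ σ : Equiv.Perm (Fin (k + k')), ((Equiv.Perm.sign σ : ℤ) : R) *
      (mono ξ I (fun l => v (σ (Fin.castAdd k' l))) * mono ξ I' (fun l => v (σ (Fin.natAdd k l)))) =
      ∑ τ : Equiv.Perm (Fin k), ∑ τ' : Equiv.Perm (Fin k'),
        ((Equiv.Perm.sign (σ * blk τ τ') : ℤ) : R) *
          ∏ m, ξ (Fin.append I I' m) (v ((σ * blk τ τ') m)) := by
    intro σ
    unfold mono
    rw [Finset.sum_mul_sum, Finset.mul_sum]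
    refine Finset.sum_congr rfl fun τ _ => ?_
    rw [Finset.mul_sum]
    refine Finset.sum_congr rfl fun τ' _ => ?_
    rw [Fin.prod_univ_add]
    simp only [Fin.append_left, Fin.append_right, Equiv.Perm.mul_apply, blk_left, blk_right,
      Equiv.Perm.sign_mul, blk_sign]
    push_cast
    ring
  rw [Finset.sum_congr rfl fun σ _ => key σ, Finset.sum_comm]
  have h1 : ∀ (τ : Equiv.Perm (Fin k)) (τ' : Equiv.Perm (Fin k')),
      ∑ σ : Equiv.Perm (Fin (k + k')), ((Equiv.Perm.sign (σ * blk τ τ') : ℤ) : R) *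
          ∏ m, ξ (Fin.append I I' m) (v ((σ * blk τ τ') m)) = mono ξ (Fin.append I I') v := by
    intro τ τ'
    exact Equiv.sum_comp (Equiv.mulRight (blk τ τ')) (fun σ => ((Equiv.Perm.sign σ : ℤ) : R) *
      ∏ m, ξ (Fin.append I I' m) (v (σ m)))
  have h2 : ∀ τ : Equiv.Perm (Fin k), ∑ σ : Equiv.Perm (Fin (k + k')),
      ∑ τ' : Equiv.Perm (Fin k'), ((Equiv.Perm.sign (σ * blk τ τ') : ℤ) : R) *
          ∏ m, ξ (Fin.append I I' m) (v ((σ * blk τ τ') m)) =
      (k'.factorial : R) * mono ξ (Fin.append I I') v := by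
    intro τ
    rw [Finset.sum_comm, Finset.sum_congr rfl fun τ' _ => h1 τ τ', Finset.sum_const,
      Finset.card_univ, Fintype.card_perm, Fintype.card_fin, nsmul_eq_mul]
  rw [Finset.sum_congr rfl fun τ _ => h2 τ, Finset.sum_const, Finset.card_univ, Fintype.card_perm,
    Fintype.card_fin, nsmul_eq_mul]
  push_cast
  ring

end Pool.Agent.Q211.ZC
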